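import Mathlib
import Pool.Agent.Q256.T6.Res

set_option autoImplicit false

/-!
# Truncated inequalities of Vojta and Wirsing for all algebraic points of every degree and almost
all divisors of the line

`F = ∑ c_i X^i Z^(d-i)` is a binary form of degree `d` with integral coefficients of absolute value
at most `T`, `D` the divisor `F = 0` of the projective line.

* A point `x` of the projective line over the algebraic closure of `ℚ`, different from infinity and
  of degree `r`, is a root of an irreducible polynomial `g ∈ ℤ[X]` of degree `r`, unique up to its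
  sign. Its height is `ht g = (1 / r) log M(g)`, where `M(g)` is the Mahler measure. With
  `P c = ∑ c_i X^i`, `res c g` is the resultant of `g` and `P c` (of formal degree `d`); up to its
  sign this is the norm of the value of `F` at `x` in coprime coordinates. At infinity the value of
  `F` is `c_d`, and the height is `0`.
* `N1 S r m` is `(1 / r) ∑ log p`, the sum over the primes `p` outside `S` which divide `m`. For
  `m = res c g` it is at most the truncated counting function `N^(1)_S(D, x)`.

`Bad d S R T Q B` is the set of the forms `F` for which the inequality `N1 ≥ B r (h(x))` is false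
for some point `x` of degree `r ≤ R` outside `D` whose height satisfies `Q r (h(x))`, and
`bd d T κ r h` is the number
`min ((d - 2 r) h + log T) (((d + 1) / r) log T - (r + 1) h) - (κ / r) log T`.
-/

namespace Pool.Agent.Results.MP_651af7_nt.AllAlgebraicPoints

open Pool.Agent.Q256.T6

/-- **Truncated inequalities for all algebraic points of degree at most `R`, for almost all divisors
of the projective line.** Let `d ≥ 1`, `R ≥ 0`, `S` a finite set of primes and `η > 0`. Of the
`(2 T + 1) ^ (d + 1)` binary forms `F` of degree `d` with integral coefficients in `[-T, T]` all but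
`C T ^ (d + 1 - κ + η)` satisfy the following for ALL algebraic points `x` of every degree `r ≤ R`
outside `F = 0`:
(1) the truncated counting function is at least
`min ((d - 2 r) h(x) + log T) (((d + 1) / r) log T - (r + 1) h(x)) - (κ / r) log T`, if
`h(x) ≤ A log T`;
(2) Vojta's inequality: it is at least `(d - 2) h(x)`, if `κ ≥ 0`,
`r (2 r - 2) h(x) ≤ (r - κ) log T` and `r (d + r - 1) h(x) ≤ (d + 1 - κ) log T`;
(3) Wirsing's inequality: it is at least `(d - 2 r) h(x)`, if `R = d`, `0 ≤ κ ≤ 1` and
`r (d - r + 1) h(x) ≤ (d + 1 - κ) log T`.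
(4) At least `T ^ d (T ^ (1 - κ) - 1)` forms violate (1) at some point. -/
theorem result (d : ℕ) (hd : 1 ≤ d) (R : ℕ) (S : Finset ℕ) (η : ℝ) (hη : 0 < η) :
    (∀ A : ℕ, ∃ C : ℝ, 0 < C ∧ ∀ (T : ℕ) (κ : ℝ), 1 ≤ T →
      ((Bad d S R T (fun _ h => h ≤ A * Real.log T) (bd d T κ)).ncard : ℝ) ≤
        C * (T : ℝ) ^ ((d : ℝ) + 1 - κ + η)) ∧
    (∃ C : ℝ, 0 < C ∧ ∀ (T : ℕ) (κ : ℝ), 1 ≤ T → 0 ≤ κ →
      ((Bad d S R T (fun r h => r * (2 * r - 2) * h ≤ (r - κ) * Real.log T ∧
        r * (d + r - 1) * h ≤ (d + 1 - κ) * Real.log T)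
        (fun _ h => ((d : ℝ) - 2) * h)).ncard : ℝ) ≤ C * (T : ℝ) ^ ((d : ℝ) + 1 - κ + η)) ∧
    (∃ C : ℝ, 0 < C ∧ ∀ (T : ℕ) (κ : ℝ), 1 ≤ T → 0 ≤ κ → κ ≤ 1 →
      ((Bad d S d T (fun r h => r * (d - r + 1) * h ≤ (d + 1 - κ) * Real.log T)
        (fun r h => ((d : ℝ) - 2 * r) * h)).ncard : ℝ) ≤
          C * (T : ℝ) ^ ((d : ℝ) + 1 - κ + η)) ∧
    (∀ (A T : ℕ) (κ : ℝ), 1 ≤ T → 0 ≤ κ →
      (T : ℝ) ^ d * ((T : ℝ) ^ (1 - κ) - 1) ≤
        ((Bad d S R T (fun _ h => h ≤ A * Real.log T) (bd d T κ)).ncard : ℝ)) :=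
  ⟨bad_bd d R S η hη, bad_vojta d R hd S η hη, bad_wirsing d S η hη,
    fun A T κ hT hκ => bad_lower d R S A T κ hT hκ⟩

end Pool.Agent.Results.MP_651af7_nt.AllAlgebraicPoints
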