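import Mathlib
import Pool.Agent.Q256.T3.Res

set_option autoImplicit false

/-!
# Vojta's inequality for all points of degree at most two and almost all divisors of the line

`F = ∑ c_i X^i Z^(d-i)` is a binary form of degree `d ≥ 2` with integral coefficients of absolute
value at most `T`, `D` the divisor `F = 0` of the projective line.

* A rational point `(p : q)`, `p` and `q` coprime, has height `hR p q = log max(|p|, |q|)`, and
  `val c p q = F(p, q)`.
* A quadratic point is a root `x` of a primitive irreducible polynomial `a X² + b X + e`, whose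
  discriminant is `f² D` with `f > 0` and `D ≠ 1` squarefree (`Quad a b e f D`); so
  `ℚ(x) = ℚ(√D)`. Its height is `hQ a b e`, half of the logarithm of the Mahler measure of this
  polynomial, and `Res c a b e` is the resultant of this polynomial and `F`.
* `N1 S r m` is `(1/r) ∑ log p`, the sum over the primes `p` outside `S` which divide `m`. For
  `m = val c p q`, `r = 1`, and for `m = Res c a b e`, `r = 2`, it is at most the truncated counting
  function `N^(1)_S(D, x)`; and `(1/2) log |D|` is at most the logarithmic discriminant `d(x)`.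

`Bad d S T lim B` is the set of the forms for which the inequality
`N1 + (1/2) log |D| ≥ B r h(x)` is false for some point `x` of degree `r ∈ {1, 2}` outside `D` with
`h(x) ≤ lim r` (for `r = 1` there is no discriminant), and
`bd d T κ r h = min ((d - 2) h + log T) (((d + 1) log T - 2 h) / r) - (κ / r) log T`.
-/

namespace Pool.Agent.Results.MP_651af7_nt.AllPointsOfDegreeTwo

open Pool.Agent.Q256.T3

/-- **Vojta's conjecture with truncated counting function for all points of degree at most two, for
almost all divisors of the projective line.** Let `d ≥ 2`, `S` a finite set of primes, `η > 0`. Of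
the `(2 T + 1) ^ (d + 1)` binary forms `F` of degree `d` with integral coefficients in `[-T, T]`
all but `C T ^ (d + 1 - κ + η)` satisfy the following for ALL points `x` of degree `r ≤ 2` outside
`F = 0`: the truncated counting function plus the logarithmic discriminant is at least
`min ((d - 2) h(x) + log T) (((d + 1) log T - 2 h(x)) / r) - (κ / r) log T`, if `h(x) ≤ A log T`;
and it is at least `(d - 2) h(x)`, if `κ ≤ 1` and
`h(x) ≤ ((d + 1 - κ) / (2 + r (d - 2))) log T`. At least `T ^ d (T ^ (1 - κ) - 1)` forms violate the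
first inequality. -/
theorem result (d : ℕ) (hd : 2 ≤ d) (S : Finset ℕ) (η : ℝ) (hη : 0 < η) :
    (∀ A : ℕ, ∃ C : ℝ, ∀ (T : ℕ) (κ : ℝ), 1 ≤ T →
      ((Bad d S T (fun _ => A * Real.log T) (bd d T κ)).ncard : ℝ) ≤
        C * (T : ℝ) ^ ((d : ℝ) + 1 - κ + η)) ∧
    (∃ C : ℝ, ∀ (T : ℕ) (κ : ℝ), 1 ≤ T → 0 ≤ κ → κ ≤ 1 →
      ((Bad d S T (fun r => ((d : ℝ) + 1 - κ) / (2 + r * ((d : ℝ) - 2)) * Real.log T)
        (fun _ h => ((d : ℝ) - 2) * h)).ncard : ℝ) ≤ C * (T : ℝ) ^ ((d : ℝ) + 1 - κ + η)) ∧
    (∀ (A T : ℕ) (κ : ℝ), 1 ≤ T → 0 ≤ κ →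
      (T : ℝ) ^ d * ((T : ℝ) ^ (1 - κ) - 1) ≤
        ((Bad d S T (fun _ => A * Real.log T) (bd d T κ)).ncard : ℝ)) :=
  ⟨bad_bd d hd S η hη, bad_vojta d hd S η hη, fun A T κ hT hκ => bad_lower d S A T κ hT hκ⟩

end Pool.Agent.Results.MP_651af7_nt.AllPointsOfDegreeTwo
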