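import Mathlib
import Pool.Agent.Q273.TR.Fin
import Pool.Agent.Q273.TR.Cell
import Pool.Agent.Q38.TR.Core
import Pool.Agent.Q166.TR.KMV
import Pool.Agent.Q166.TR.RANK
import Pool.Agent.Q166.TR.DIRI
import Pool.Agent.Q177.TR.Cnt1
import Pool.Agent.Q79.TR.Cnt2

/-!
# Vojta's inequality with truncated counting functions for the algebraic points of every degree and
almost every real target

A reduced effective divisor `D` of degree `q` of the projective line over `ℚ` is given by a squarefree
`G ∈ ℤ[T]` of degree `q` or `q - 1`: `D = div₀(G) + (q - deg G) ∞`. An algebraic number `x` of degree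
`s` is given by its minimal polynomial `f ∈ ℤ[T]`. For a finite set `S` of primes `N1` is
`(1 / s) ∑ log p`, the sum over the primes `p` outside `S` which divide the resultant of `f` and `G`;
it is at most the truncated counting function `N^(1)_S(D, x)`. The second divisor is a real point `ξ`,
with the proximity function `m(ξ, x) = prox ξ f`.

For almost every real number `ξ` the inequality
`m(ξ, x) + q h(x) - N^(1)_S(D, x) ≤ (max (s + 1) (3 q) + ε) h(x) + C` holds for all `s`, all `D`, all
`S`, all `ε > 0` and ALL algebraic numbers `x` of degree `s` outside `D`. The number `s + 1` is optimal.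
So Vojta's inequality for `D`, truncated at level one, with `[ξ]` as an additional component, holds at
all points with `d(x) ≥ max (s - 1) (3 q - 2) h(x)`, and for `D` alone at all points with
`m(ξ, x) + d(x) ≥ max (s - 1) (3 q - 2) h(x)`.
-/

set_option autoImplicit false

namespace Pool.Agent.Results.MP_651af7_nt.AlmostEveryTargetAllDegrees

open Polynomial IntermediateField MeasureTheory

/-- The absolute logarithmic height `(log M(f)) / deg f` of the roots of an irreducible `f ∈ ℤ[X]`
(`M` is the Mahler measure). -/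
noncomputable def height (f : ℤ[X]) : ℝ :=
  Real.log (f.map (Int.castRingHom ℂ)).mahlerMeasure / f.natDegree

/-- The proximity function `m(ξ, x)` of the real point `ξ`: the average over the conjugates `z` of
`x`, i.e. the roots of `f`, of `log (max(1,|z|) max(1,|ξ|) / |ξ - z|)`. -/
noncomputable def prox (ξ : ℝ) (f : ℤ[X]) : ℝ :=
  ((f.map (Int.castRingHom ℂ)).roots.map fun z =>
    Real.log (max 1 ‖z‖ * max 1 |ξ| / ‖(ξ : ℂ) - z‖)).sum / f.natDegree

/-- `(1 / deg f) ∑ log p`, the sum over the primes `p` outside `S` which divide the resultant of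
`f` and `G` (for the degrees `deg f` and `q`). -/
noncomputable def N1 (S : Finset ℕ) (q : ℕ) (G f : ℤ[X]) : ℝ :=
  (∑ p ∈ (resultant f G f.natDegree q).natAbs.primeFactors \ S, Real.log p) / f.natDegree

/-- `λ_{D,∞}(x)` for the divisor `D` of degree `q` given by `G`: the average over the conjugates
`z` of `x` of `log (max(1,|z|)^q / |G(z)|)`. -/
noncomputable def lambdaInf (G : ℤ[X]) (q : ℕ) (f : ℤ[X]) : ℝ :=
  ((f.map (Int.castRingHom ℂ)).roots.map fun z =>
    Real.log (max 1 ‖z‖ ^ q / ‖(G.map (Int.castRingHom ℂ)).eval z‖)).sum / f.natDegree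

/-- `λ_{D,p}(x)`, the average over the conjugates `z` of `x` over `ℚ_p` of
`log (max(1,|z|_p)^q / |G(z)|_p)`; for primitive `f` the sum over the conjugates is
`-log |Res(f,G)|_p`, with `Res` the resultant for the degrees `deg f` and `q`. -/
noncomputable def lambdaP (p : ℕ) (G : ℤ[X]) (q : ℕ) (f : ℤ[X]) : ℝ :=
  (padicValInt p (resultant f G f.natDegree q) : ℝ) * Real.log p / f.natDegree

open Classical in
/-- The logarithmic discriminant `d(x)` of the field `ℚ(x)`. -/
noncomputable def logDisc (x : ℂ) : ℝ :=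
  if _ : NumberField ℚ⟮x⟯ then
    Real.log |(NumberField.discr ℚ⟮x⟯ : ℝ)| / Module.finrank ℚ ℚ⟮x⟯ else 0

/-- `G` gives a reduced effective divisor of degree `q` of the projective line over `ℚ`
(`D = div₀(G) + (q - deg G) ∞`), and `S` is a set of primes. -/
def IsPair (q : ℕ) (G : ℤ[X]) (S : Finset ℕ) : Prop :=
  Squarefree (G.map (Int.castRingHom ℚ)) ∧ G.natDegree ≤ q ∧ q ≤ G.natDegree + 1 ∧
    ∀ p ∈ S, p.Prime

/-- `f` is the minimal polynomial over `ℤ` of the algebraic number `x` of degree `s`, which is not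
a zero of `G`. -/
def IsPoint (s : ℕ) (G f : ℤ[X]) (x : ℂ) : Prop :=
  Irreducible f ∧ f.natDegree = s ∧ aeval x f = 0 ∧ aeval x G ≠ 0

/-- **Vojta's inequality with truncated counting functions for the algebraic points of every degree
and almost every real target.** For almost all real numbers `ξ`:
(1) for all `s ≥ 1`, all reduced effective divisors `D` over `ℚ` of degree `q`, all finite sets `S` of
primes and all `ε > 0` there is `C` such that ALL algebraic numbers `x` of degree `s` outside `D`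
satisfy `m(ξ, x) + (q h(x) - N^(1)_S(D, x)) ≤ (max (s + 1) (3 q) + ε) h(x) + C`;
(2) for all `s ≥ 1` there are infinitely many algebraic numbers of degree `s` with
`m(ξ, x) ≥ (s + 1) h(x) - C`, so that `s + 1` is optimal in (1);
(3) Vojta's inequality `∑_{v ∈ S ∪ {∞}} λ_{D,v}(x) + h_K(x) - d(x) ≤ ε h(x) + C`, with `h_K = -2 h`,
holds for all `x` of degree `s` outside `D` with `(max (s + 1) (3 q) - 2) h(x) ≤ m(ξ, x) + d(x)`. -/
theorem result : ∀ᵐ ξ : ℝ,
    (∀ (s q : ℕ) (G : ℤ[X]) (S : Finset ℕ), 1 ≤ s → IsPair q G S → ∀ ε : ℝ, 0 < ε → ∃ C : ℝ,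
      ∀ (f : ℤ[X]) (x : ℂ), IsPoint s G f x →
        prox ξ f + (q * height f - N1 S q G f) ≤
          (((max (s + 1) (3 * q) : ℕ) : ℝ) + ε) * height f + C) ∧
    (∀ s : ℕ, 1 ≤ s → ∃ C : ℝ, {f : ℤ[X] | Irreducible f ∧ f.natDegree = s ∧
      ((s : ℝ) + 1) * height f - C ≤ prox ξ f}.Infinite) ∧
    (∀ (s q : ℕ) (G : ℤ[X]) (S : Finset ℕ), 1 ≤ s → IsPair q G S → ∀ ε : ℝ, 0 < ε → ∃ C : ℝ,
      ∀ (f : ℤ[X]) (x : ℂ), IsPoint s G f x →
        (((max (s + 1) (3 * q) : ℕ) : ℝ) - 2) * height f ≤ prox ξ f + logDisc x →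
          lambdaInf G q f + ∑ p ∈ S, lambdaP p G q f + (-2) * height f - logDisc x ≤
            ε * height f + C) := by
  have hcore := Pool.Agent.Q38.TR.core Q166.TR.kmv Q273.TR.cell
  have hcnt := Pool.Agent.Q79.TR.cnt2 Pool.Agent.Q177.TR.cnt1
  filter_upwards [Q273.TR.spr hcore, Q273.TR.main hcore Q166.TR.rank Q166.TR.inv hcnt] with ξ h1 h2
  have hA := fun (s q : ℕ) (G : ℤ[X]) (S : Finset ℕ) (hs : 1 ≤ s) (hp : IsPair q G S) (ε : ℝ)
    (hε : 0 < ε) => Q273.TR.part1 h1 h2 s q G S hs hp ε hε
  refine ⟨hA, fun s hs => Q273.TR.part2 Q166.TR.diri h1 s hs, fun s q G S hs hp ε hε => ?_⟩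
  obtain ⟨C, hC⟩ := hA s q G S hs hp ε hε
  refine ⟨C, fun f x hx hcond => ?_⟩
  have h3 := hC f x hx
  have h4 : lambdaInf G q f + ∑ p ∈ S, lambdaP p G q f + N1 S q G f ≤ q * height f :=
    Q273.TR.lam_le hs hx hp.2.1 S hp.2.2.2
  have h5 : Q273.TR.prox ξ f = prox ξ f := rfl
  have h6 : Q273.TR.height f = height f := rfl
  have h7 : Q273.TR.N1 S q G f = N1 S q G f := rfl
  rw [h5, h6, h7] at h3
  linarith

end Pool.Agent.Results.MP_651af7_nt.AlmostEveryTargetAllDegrees
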