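import Pool.Agent.Q52.SecZ.Main
import Pool.Agent.Q52.SecX.Irr

/-!
# Degrees and discriminants of the algebraic points of 100% of the cyclic covers of `(ℙ¹)^r`

Let `K` be a number field, for example `ℚ`, `r ≥ 1` and `d_1, …, d_r ≥ 3` integers with a common
divisor `g ≥ 2`.  For vectors `y = (a, f_1, …, f_r)` of integers of `K`, where `f_i` stands for the
`d_i + 1` coefficients of a binary form of degree `d_i`, let `X` be the cyclic cover

  `a u ^ g = f_1(x_1, t_1) ⋯ f_r(x_r, t_r)`

of the product of `r` projective lines, or any smooth projective variety with a rational map to it,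
for example its resolutions and the covers `a w ^ n = f_1(x_1) ⋯ f_r(x_r)`, `n` divisible by `g`
(`u = w ^ (n / g)`).  For `r = 1` these are the superelliptic curves; `X` is of general type if all
`d_i` are large.

We prove for every real `B`: for all vectors `y` outside a set of density zero, `a ≠ 0`, all `f_i` are
irreducible over `K`, and for every common divisor `g ≥ 2` of the `d_i` all closed points `P` of `X`
have the following properties, `L = K(P)`:

* `g` divides the degree `[L : K]`.  So `X` has no point of degree `< g`, and the statement of Q1 holds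
  for `X`, every divisor `D` and all points of degree `r < g` with `Z = ∅`.
* If `[L : K] < d_i` for all `i`, then the logarithmic discriminant `d_K(P) = d(L) - d(K)` is at least
  `B`.  So the inequality `h_{K_X}(P) ≤ d_K(P)` of Q1 (with `D = 0`, even without the terms
  `ε h_A(P)` and `C`) holds uniformly for all points of degree less than all `d_i` whose canonical
  height is at most `B`; for `r = 1`, `g = 2` these are for example all quadratic points above
  rational points of the line, and all points of degree at most `d_1 - 1` on the hyperelliptic curves.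

Density zero is meant in the strong sense: for every `ε > 0` there is an ideal `I ≠ 0` of the ring
of integers `R` such that the exceptional vectors lie in at most `ε #(R/I) ^ N` residue classes
modulo `I`, where `N = 1 + ∑ (d_i + 1)` is the number of coefficients.

Proof.  Let `v` be a prime such that `a` is divisible by `v` exactly once and all `f_i` are
irreducible of degree `d_i` modulo `v`; the number of these `v` is at least `M` for almost all `y`, by a
sieve.  Let `w` be a place of `L` above `v` with ramification index `e` and residue degree `f`.  If no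
`d_i` divides `f`, then the `f_i` have no zero in the residue field, the values of the forms `f_i` at
elements of `L_w` have valuations divisible by `g`, and therefore `g` divides `e`.  So `g` divides all
`e f`, and their sum `[L : K]`.  If `[L : K] < d_i` for all `i` then `g` divides all `e`, and every `v`
contributes at least `(1 - 1/g) log N(v)` to `d_K(P)`.
-/

open Polynomial NumberField IsDedekindDomain

namespace Pool.Agent.Results.MP_651af7_nt.PointsOfAlmostAllCovers

/-- the index set of the coefficients of `(a, f_1, …, f_r)`, `deg f_i = d i`: `none` for `a`, and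
`some ⟨i, j⟩` for the coefficient of `x ^ j t ^ (d i - j)` in `f_i` -/
abbrev Idx {r : ℕ} (d : Fin r → ℕ) : Type := Option (Σ i : Fin r, Fin (d i + 1))

/-- the dehomogenized form `f_i(x, 1)` of the vector `y` -/
noncomputable def poly {K : Type} [Field K] [NumberField K] {r : ℕ} {d : Fin r → ℕ}
    (y : Idx d → 𝓞 K) (i : Fin r) : K[X] :=
  ∑ j : Fin (d i + 1), C (algebraMap (𝓞 K) K (y (some ⟨i, j⟩))) * X ^ (j : ℕ)

/-- the value `f_i(x, t)` of the binary form number `i` of the vector `y` -/
noncomputable def formValue {K L : Type} [Field K] [NumberField K] [Field L] [Algebra K L] {r : ℕ}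
    {d : Fin r → ℕ} (y : Idx d → 𝓞 K) (i : Fin r) (x t : L) : L :=
  ∑ j : Fin (d i + 1), algebraMap K L (algebraMap (𝓞 K) K (y (some ⟨i, j⟩))) * x ^ (j : ℕ) *
    t ^ (d i - j)

/-- the cover `a u ^ g = ∏ f_i(x_i, t_i)` of `(ℙ¹)^r` has a point over `L` -/
def HasPoint {K : Type} (L : Type) [Field K] [NumberField K] [Field L] [Algebra K L] (g : ℕ)
    {r : ℕ} {d : Fin r → ℕ} (y : Idx d → 𝓞 K) : Prop :=
  ∃ (x t : Fin r → L) (u : L), (∀ i, x i ≠ 0 ∨ t i ≠ 0) ∧
    algebraMap K L (algebraMap (𝓞 K) K (y none)) * u ^ g = ∏ i, formValue y i (x i) (t i)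

/-- The logarithmic discriminant `log |disc L| / [L : K] - log |disc K|`. -/
noncomputable def logDisc (K L : Type) [Field K] [NumberField K] [Field L] [NumberField L]
    [Algebra K L] : ℝ :=
  Real.log |(discr L : ℝ)| / Module.finrank K L - Real.log |(discr K : ℝ)|

/-- the exceptional vectors: those without the stated properties of all points over all number
fields `L` containing `K` -/
def Exceptional (K : Type) [Field K] [NumberField K] {r : ℕ} (d : Fin r → ℕ) (B : ℝ) :
    Set (Idx d → 𝓞 K) :=
  {y | ¬ (y none ≠ 0 ∧ (∀ i, (poly y i).natDegree = d i ∧ Irreducible (poly y i)) ∧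
    ∀ g : ℕ, 2 ≤ g → (∀ i, g ∣ d i) →
      ∀ (L : Type) [Field L] [NumberField L] [Algebra K L], HasPoint L g y →
        g ∣ Module.finrank K L ∧ ((∀ i, Module.finrank K L < d i) → B ≤ logDisc K L))}

/-- for every `ε > 0` the set `S` of vectors lies in at most `ε #(R/I) ^ |ι|` residue classes modulo
some nonzero ideal `I` of the ring of integers `R` of `K` -/
def DensityZero {K ι : Type} [Field K] [NumberField K] [Fintype ι] (S : Set (ι → 𝓞 K)) : Prop :=
  ∀ ε : ℝ, 0 < ε → ∃ I : Ideal (𝓞 K), I ≠ ⊥ ∧ Finite (𝓞 K ⧸ I) ∧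
    (Set.ncard ((fun (y : ι → 𝓞 K) i => Ideal.Quotient.mk I (y i)) '' S) : ℝ) ≤
      ε * (Nat.card (𝓞 K ⧸ I) : ℝ) ^ (Fintype.card ι)

theorem result (K : Type) [Field K] [NumberField K] (r : ℕ) (d : Fin r → ℕ) (hd : ∀ i, 3 ≤ d i)
    (B : ℝ) : DensityZero (Exceptional K d B) := by
  classical
  intro ε hε
  obtain ⟨M, hM⟩ := exists_nat_ge (B / (Real.log 2 / 2))
  have hlog : 0 < Real.log 2 / 2 := by
    have := Real.log_pos (by norm_num : (1 : ℝ) < 2)
    linarith
  obtain ⟨I, hI, hfin, hcard⟩ := Pool.Agent.Q52.SecY.many_good (K := K) d hd (M + 1) ε hε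
  refine ⟨I, hI, hfin, le_trans ?_ hcard⟩
  have hsub : Exceptional K d B ⊆
      {y : Pool.Agent.Q52.SecY.Idx d → 𝓞 K | ¬ ∃ T : Finset (HeightOneSpectrum (𝓞 K)),
        T.card = M + 1 ∧ ∀ v ∈ T, (fun o => Ideal.Quotient.mk (v.asIdeal ^ 2) (y o)) ∈
          Pool.Agent.Q52.SecY.GoodM v d} := by
    intro y hy
    rintro ⟨T, hTc, hT⟩
    apply hy
    have hTne : T.Nonempty := by
      rw [← Finset.card_pos, hTc]
      omega
    obtain ⟨v₀, hv₀⟩ := id hTne
    obtain ⟨h1, h2, h3⟩ := Pool.Agent.Q52.SecY.good_iff' v₀ d y (hT v₀ hv₀)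
    have hinj : Function.Injective (algebraMap (𝓞 K) K) := IsFractionRing.injective (𝓞 K) K
    have hlast : ∀ i, y (some ⟨i, Fin.last (d i)⟩) ≠ 0 := by
      intro i h
      apply (h3 i).1
      rw [h]
      exact zero_mem _
    have hpoly : ∀ i, poly y i = Pool.Agent.TH377.Sup.pol
        (fun j => algebraMap (𝓞 K) K (y (some ⟨i, j⟩))) := fun i => rfl
    refine ⟨?_, fun i => ⟨?_, ?_⟩, ?_⟩
    · intro h
      apply h2
      rw [h]
      exact zero_mem _
    · rw [hpoly]
      apply Pool.Agent.TH377.Sup.pol_natDegree
      rw [Ne, map_eq_zero_iff _ hinj]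
      exact hlast i
    · rw [hpoly, ← Pool.Agent.TH377.Sup.pol_map]
      refine Pool.Agent.Q52.SecX.irr_of_red v₀ (Pool.Agent.TH377.Sup.pol
        fun j => y (some ⟨i, j⟩)) ?_ (h3 i).2
      rw [Pool.Agent.TH377.Sup.pol_leadingCoeff (fun j => y (some ⟨i, j⟩)) (hlast i)]
      exact (h3 i).1
    · intro g hg hgd L _ _ _ hpt
      obtain ⟨h4, h5⟩ := Pool.Agent.Q52.SecZ.deg_disc d y g (by omega) hpt g hg dvd_rfl hgd T hTne hT
      refine ⟨h4, fun hlt => le_trans ?_ (h5 hlt)⟩
      rw [hTc]
      push_cast
      rw [div_le_iff₀ hlog] at hM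
      nlinarith
  have := Set.ncard_le_ncard (Set.image_mono (f := fun (y : Idx d → 𝓞 K) i =>
    Ideal.Quotient.mk I (y i)) hsub) (Set.toFinite _)
  exact_mod_cast this

end Pool.Agent.Results.MP_651af7_nt.PointsOfAlmostAllCovers
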